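import Pool.Agent.U643.LSS.Grd

/-!
# Hypergraph Lovász–Saks–Schrijver ideals: the complete intersection property persists in `d`

If the ideal `L_H(d)` of a hypergraph whose edges form a clutter is generated by a regular sequence, then so is `L_H(d + 1)`.

The proof is elementary. (1) If an ideal is generated by some regular sequence, then all relations between the members of a
minimal system of generators (here the `f_A`, by the clutter condition) are combinations of the trivial relations
`f_B * f_A - f_A * f_B` (`Kos.change`; transition matrices between the two systems are invertible modulo the ideal). (2) The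
polynomials `f_A^{(d+1)}` reduce to the `f_A^{(d)}` modulo the new variables `z_i`, so all relations between the `f_A^{(d+1)}`
and the `z_i` are trivial (`Kos.lift`). (3) As everything is homogeneous, the `z_i` can be removed (`Kos.of_option`), and the
`f_A^{(d+1)}` form a regular sequence, in every order (`regular_of_kos`).
-/

set_option autoImplicit false

open MvPolynomial Finset Pool.Agent.U643.LSS

namespace Pool.Agent.Results.MP_3122b6_ag.CompleteIntersectionPersistence

/-- The ideal `I` is a complete intersection: it is generated by a regular sequence. -/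
def IsCompleteIntersection {S : Type*} [CommRing S] (I : Ideal S) : Prop :=
  ∃ rs : List S, RingTheory.Sequence.IsRegular S rs ∧ Ideal.ofList rs = I

variable (k : Type*) [Field k] {V : Type*}

/-- `f_A^{(d)} = ∑_j ∏_{i ∈ A} y_{i,j}`. -/
noncomputable def edgePoly (d : ℕ) (A : Finset V) : MvPolynomial (V × Fin d) k :=
  ∑ j : Fin d, ∏ i ∈ A, X (i, j)

/-- The ideal `L_H(d)` generated by the `f_A^{(d)}`, `A ∈ E`. -/
noncomputable def lss (d : ℕ) (E : Set (Finset V)) : Ideal (MvPolynomial (V × Fin d) k) :=
  Ideal.span (edgePoly k d '' E)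

/-- `E` is a clutter of nonempty sets. -/
def IsClutter (E : Set (Finset V)) : Prop :=
  (∀ A ∈ E, A.Nonempty) ∧ ∀ A ∈ E, ∀ B ∈ E, A ⊆ B → A = B

variable {k} {d : ℕ}

lemma lss_eq (E : Set (Finset V)) :
    lss k d E = Ideal.span (Set.range fun A : E => edgePoly k d (A : Finset V)) := by
  unfold lss
  rw [Set.image_eq_range]

lemma edgePoly_isHomogeneous (A : Finset V) : (edgePoly k d A).IsHomogeneous A.card := by
  unfold edgePoly
  refine IsHomogeneous.sum _ _ _ fun j _ => ?_
  have := IsHomogeneous.prod A (fun i => (X (i, j) : MvPolynomial (V × Fin d) k)) (fun _ => 1)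
    (fun i _ => isHomogeneous_X k (i, j))
  simpa using this

lemma constantCoeff_edgePoly {A : Finset V} (hA : A.Nonempty) :
    constantCoeff (edgePoly k d A) = 0 := by
  obtain ⟨a, ha⟩ := hA
  unfold edgePoly
  rw [map_sum]
  refine Finset.sum_eq_zero fun j _ => ?_
  rw [map_prod]
  exact Finset.prod_eq_zero ha (by simp)

section minimal

open scoped Classical in
/-- setting the variables outside of `A × {0}` equal to zero -/
noncomputable def psi (hd : 0 < d) (A : Finset V) : MvPolynomial (V × Fin d) k →ₐ[k] MvPolynomial V k :=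
  aeval fun p : V × Fin d => if p.2 = ⟨0, hd⟩ ∧ p.1 ∈ A then X p.1 else 0

lemma constantCoeff_psi (hd : 0 < d) (A : Finset V) (x : MvPolynomial (V × Fin d) k) :
    constantCoeff (psi hd A x) = constantCoeff x := by
  have h : (constantCoeff (σ := V) (R := k)).comp (psi (k := k) hd A).toRingHom = constantCoeff := by
    refine ringHom_ext (fun r => ?_) fun p => ?_
    · simp [psi]
    · simp only [psi, RingHom.comp_apply, AlgHom.toRingHom_eq_coe, RingHom.coe_coe, aeval_X,
        constantCoeff_X]
      split_ifs <;> simp
  exact congrArg (fun g => g x) h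

lemma psi_self (hd : 0 < d) (A : Finset V) (hA : A.Nonempty) :
    psi hd A (edgePoly k d A) = ∏ i ∈ A, X i := by
  classical
  unfold edgePoly psi
  rw [map_sum]
  rw [Finset.sum_eq_single (⟨0, hd⟩ : Fin d)]
  · rw [map_prod]
    refine prod_congr rfl fun i hi => ?_
    rw [aeval_X, if_pos ⟨rfl, hi⟩]
  · intro j _ hj
    rw [map_prod]
    obtain ⟨a, ha⟩ := hA
    refine prod_eq_zero ha ?_
    rw [aeval_X, if_neg fun h => hj h.1]
  · intro h
    exact absurd (mem_univ _) h

lemma psi_other (hd : 0 < d) (A B : Finset V) (hB : ¬ B ⊆ A) : psi hd A (edgePoly k d B) = 0 := by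
  classical
  obtain ⟨b, hb, hbA⟩ := Finset.not_subset.1 hB
  unfold edgePoly psi
  rw [map_sum]
  refine sum_eq_zero fun j _ => ?_
  rw [map_prod]
  refine prod_eq_zero hb ?_
  rw [aeval_X, if_neg fun h => hbA h.2]

lemma minimal {E : Set (Finset V)} [Fintype E] (hE : IsClutter E) (hd : 0 < d)
    (a : E → MvPolynomial (V × Fin d) k) (h : ∑ A, a A * edgePoly k d (A : Finset V) = 0) (A : E) :
    constantCoeff (a A) = 0 := by
  have h1 := congrArg (psi hd (A : Finset V)) h
  rw [map_sum, map_zero, Finset.sum_eq_single A] at h1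
  · rw [map_mul, psi_self hd _ (hE.1 A A.2)] at h1
    rcases mul_eq_zero.1 h1 with h2 | h2
    · rw [← constantCoeff_psi hd (A : Finset V), h2, map_zero]
    · exact absurd h2 (prod_ne_zero_iff.2 fun i _ => X_ne_zero i)
  · intro B _ hB
    rw [map_mul, psi_other hd _ _ (fun hs => hB (Subtype.ext (hE.2 B B.2 A A.2 hs))), mul_zero]
  · intro h2
    exact absurd (mem_univ A) h2

end minimal

section step

/-- setting the variables with the last index equal to zero -/
noncomputable def phi : MvPolynomial (V × Fin (d + 1)) k →ₐ[k] MvPolynomial (V × Fin d) k :=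
  aeval fun p : V × Fin (d + 1) => if h : (p.2 : ℕ) < d then X (p.1, ⟨p.2, h⟩) else 0

/-- the inclusion of the polynomial ring with fewer variables -/
noncomputable def sig : MvPolynomial (V × Fin d) k →ₐ[k] MvPolynomial (V × Fin (d + 1)) k :=
  rename fun p : V × Fin d => (p.1, p.2.castSucc)

lemma phi_castSucc (i : V) (j : Fin d) :
    phi (X (i, j.castSucc) : MvPolynomial (V × Fin (d + 1)) k) = X (i, j) := by
  unfold phi
  rw [aeval_X]
  simp

lemma phi_last (i : V) : phi (X (i, Fin.last d) : MvPolynomial (V × Fin (d + 1)) k) = 0 := by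
  unfold phi
  rw [aeval_X]
  simp

lemma phi_sig (x : MvPolynomial (V × Fin d) k) : phi (sig x) = x := by
  have h : (phi (k := k) (V := V) (d := d)).comp sig = AlgHom.id k _ := by
    ext p
    simp only [AlgHom.comp_apply, sig, rename_X, phi_castSucc, AlgHom.id_apply]
  exact congrArg (fun g => g x) h

lemma phi_edgePoly {A : Finset V} (hA : A.Nonempty) : phi (edgePoly k (d + 1) A) = edgePoly k d A := by
  unfold edgePoly
  rw [Fin.sum_univ_castSucc, map_add, map_sum]
  have h1 : phi (∏ i ∈ A, X (i, Fin.last d) : MvPolynomial (V × Fin (d + 1)) k) = 0 := by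
    rw [map_prod]
    obtain ⟨a, ha⟩ := hA
    exact prod_eq_zero ha (phi_last a)
  rw [h1, add_zero]
  refine sum_congr rfl fun j _ => ?_
  rw [map_prod]
  exact prod_congr rfl fun i _ => phi_castSucc i j

lemma sub_mem (x : MvPolynomial (V × Fin (d + 1)) k) :
    x - sig (phi x) ∈ Ideal.span (Set.range fun i : V => (X (i, Fin.last d) : MvPolynomial (V × Fin (d + 1)) k)) := by
  set I := Ideal.span (Set.range fun i : V => (X (i, Fin.last d) : MvPolynomial (V × Fin (d + 1)) k)) with hI
  have h : (Ideal.Quotient.mkₐ k I) = ((Ideal.Quotient.mkₐ k I).comp sig).comp phi := by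
    refine algHom_ext fun p => ?_
    obtain ⟨i, j⟩ := p
    simp only [AlgHom.comp_apply]
    rcases Fin.eq_castSucc_or_eq_last j with ⟨j, rfl⟩ | rfl
    · rw [phi_castSucc]
      simp only [sig, rename_X]
    · rw [phi_last, map_zero, map_zero]
      rw [Ideal.Quotient.mkₐ_eq_mk, Ideal.Quotient.eq_zero_iff_mem]
      exact Ideal.subset_span ⟨i, rfl⟩
  have h1 := congrArg (fun g => g x) h
  simp only [AlgHom.comp_apply, Ideal.Quotient.mkₐ_eq_mk] at h1
  exact (Ideal.Quotient.eq).1 h1

end step

/-- **Persistence of the complete intersection property.** Let `k` be a field and let `E` be a clutter of nonempty subsets of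
the finite set `V`. For `d ≥ 1`, if the ideal `L_H(d)` is a complete intersection, then `L_H(d + 1)` is a complete
intersection. -/
theorem result (k : Type*) [Field k] {V : Type*} [Finite V] (E : Set (Finset V)) (hE : IsClutter E)
    (d : ℕ) (hd : 1 ≤ d) (h : IsCompleteIntersection (lss k d E)) :
    IsCompleteIntersection (lss k (d + 1) E) := by
  classical
  have : Fintype V := Fintype.ofFinite V
  have : Fintype E := Fintype.ofFinite E
  obtain ⟨rs, hrs, hspan⟩ := h
  have h1 := kos_of_regular rs hrs.toIsWeaklyRegular
  have h2 : Kos (fun A : E => edgePoly k d (A : Finset V)) := by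
    refine Kos.change constantCoeff h1 ?_ (fun A => constantCoeff_edgePoly (hE.1 A A.2))
      (minimal hE (by omega))
    rw [← lss_eq, ← hspan]
    have := span_take rs rs.length le_rfl
    rw [List.take_length] at this
    exact this
  have hinj : Function.Injective fun i : V => (i, Fin.last d) := fun i j hij => congrArg Prod.fst hij
  have hz : Kos (fun i : V => (X (i, Fin.last d) : MvPolynomial (V × Fin (d + 1)) k)) :=
    kos_X (σ := V × Fin (d + 1)) (fun i : V => (i, Fin.last d)) hinj
  have hφf : Kos (fun A : E => (phi (edgePoly k (d + 1) (A : Finset V)) : MvPolynomial (V × Fin d) k)) := by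
    have : (fun A : E => (phi (edgePoly k (d + 1) (A : Finset V)) : MvPolynomial (V × Fin d) k)) =
        fun A : E => edgePoly k d (A : Finset V) := by
      funext A
      exact phi_edgePoly (hE.1 A A.2)
    rw [this]
    exact h2
  have hker : ∀ x : MvPolynomial (V × Fin (d + 1)) k, phi x = 0 →
      x ∈ Ideal.span (Set.range fun i : V => (X (i, Fin.last d) : MvPolynomial (V × Fin (d + 1)) k)) := by
    intro x hx
    have := sub_mem (k := k) (V := V) (d := d) x
    rw [hx, map_zero, sub_zero] at this
    exact this
  have h3 : Kos (Sum.elim (fun A : E => edgePoly k (d + 1) (A : Finset V))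
      (fun i : V => (X (i, Fin.last d) : MvPolynomial (V × Fin (d + 1)) k))) :=
    Kos.lift (phi (k := k) (V := V) (d := d)).toRingHom (sig (k := k) (V := V) (d := d)).toRingHom
      (fun x => phi_sig x) hz hker (fun i => phi_last i) hφf
  have h4 : Kos (fun A : E => edgePoly k (d + 1) (A : Finset V)) := by
    have h8 := Kos.of_sum (Sum.elim (fun A : E => edgePoly k (d + 1) (A : Finset V))
      (fun i : V => (X (i, Fin.last d) : MvPolynomial (V × Fin (d + 1)) k)))
      (Sum.elim (fun A : E => (A : Finset V).card) fun _ => 1) (by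
        rintro (A | i)
        · exact edgePoly_isHomogeneous _
        · exact isHomogeneous_X k _) (fun _ => one_pos) h3
    simpa only [Sum.elim_inl] using h8
  let eqv := Fintype.equivFin E
  have h5 : Kos (fun i => edgePoly k (d + 1) ((eqv.symm i : E) : Finset V)) := by
    refine Kos.of_equiv eqv ?_
    simpa using h4
  have h6 := regular_of_kos _ (fun i => ((eqv.symm i : E) : Finset V).card)
    (fun i => edgePoly_isHomogeneous _) (fun i => Finset.card_pos.2 (hE.1 _ (eqv.symm i).2)) h5
  have h7 : Ideal.ofList (List.ofFn fun i => edgePoly k (d + 1) ((eqv.symm i : E) : Finset V)) =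
      lss k (d + 1) E := by
    rw [lss_eq]
    unfold Ideal.ofList
    congr 1
    ext x
    simp only [Set.mem_ofPred_eq, List.mem_ofFn, Set.mem_range]
    constructor
    · rintro ⟨i, rfl⟩
      exact ⟨eqv.symm i, rfl⟩
    · rintro ⟨A, rfl⟩
      exact ⟨eqv A, by simp⟩
  refine ⟨_, ⟨h6, ?_⟩, h7⟩
  rw [smul_top_eq, h7]
  intro htop
  have hle : lss k (d + 1) E ≤ RingHom.ker (constantCoeff (σ := V × Fin (d + 1)) (R := k)) := by
    rw [lss_eq, Ideal.span_le]
    rintro _ ⟨A, rfl⟩
    exact constantCoeff_edgePoly (hE.1 A A.2)
  have hone : (1 : MvPolynomial (V × Fin (d + 1)) k) ∈ lss k (d + 1) E := by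
    rw [← htop]
    exact Submodule.mem_top
  have := hle hone
  rw [RingHom.mem_ker, map_one] at this
  exact one_ne_zero this

end Pool.Agent.Results.MP_3122b6_ag.CompleteIntersectionPersistence
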